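import Pool.Agent.Helper844.FC.Final
import Pool.Agent.Y669.GW.Law

/-!
# Functional completeness: two words added to one fixed list, on every group with a free subgroup

The earlier result says that no algorithm decides whether a finite list of words is functionally
complete on every group.  Here the list is `F ++ [A, A']` with one fixed finite list `F`, so only the
two words `A`, `A'` are given; every recursively enumerable set is many-one reduced to the problem,
hence the lists which are not functionally complete on every group cannot be enumerated; a list
of the reduction which is not functionally complete on every group fails on a group generated by two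
elements; and all groups may be replaced by any class of groups which has a member with a free
subgroup of rank two, for example by one single group of this kind.  (For a single finite group the
problem is decidable.)

The reduction is the one of the earlier proof, for a universal recursively enumerable set.  If a
group satisfies no law, then a word which is expressible on this group is expressible on every
group; a group with a free subgroup of rank two satisfies no law.
-/

set_option autoImplicit false

namespace Pool.Agent.Results.MP_57bda5_lc.TwoWords

open Pool.Agent.Helper844.FC Pool.Agent.Helper844.Sys Pool.Agent.Helper844.Dio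
open Pool.Agent.Y669.GW (exists_lift_injective)
open Nat.Partrec (Code)

universe u v

theorem lift_mk_eq {G : Type u} [Group G] (v : ℕ → G) (w : Word) :
    FreeGroup.lift v (FreeGroup.mk w) = wEval v w := by
  rw [FreeGroup.lift_mk]
  unfold wEval
  congr 1
  apply List.map_congr_left
  intro a _
  rcases a with ⟨i, b⟩
  cases b <;> rfl

/-- On a group without laws only those words are produced which are produced on every group. -/
theorem produced_of_free {G : Type u} [Group G] {v : ℕ → G}
    (hv : ∀ x : FreeGroup ℕ, FreeGroup.lift v x = 1 → x = 1) {H : Type v} [Group H]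
    {B : List Word} {w : Word} (h : Produced G B w) : Produced H B w := by
  induction h with
  | base h => exact Produced.base h
  | var i => exact Produced.var i
  | subst σ _ _ ih ih' => exact Produced.subst σ ih ih'
  | @congr u w _ h ih =>
    have h1 : FreeGroup.mk u = FreeGroup.mk w := by
      refine div_eq_one.1 (hv _ ?_)
      rw [map_div, lift_mk_eq, lift_mk_eq, h v, div_self']
    exact Produced.congr ih fun v' => by rw [← lift_mk_eq, ← lift_mk_eq, h1]

/-- The free product of two infinite cyclic groups is generated by two elements. -/
theorem exists_surj : ∃ ψ : FreeGroup (Fin 2) →* W, Function.Surjective ψ := by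
  let ψ : FreeGroup (Fin 2) →* W := FreeGroup.lift fun i => if i = 0 then letter true 1
    else letter false 1
  have h0 : letter true 1 ∈ ψ.range := ⟨FreeGroup.of 0, by simp [ψ]⟩
  have h1 : letter false 1 ∈ ψ.range := ⟨FreeGroup.of 1, by simp [ψ]⟩
  have h2 : ∀ (b : Bool) (k : ℤ), letter b k = letter b 1 ^ k := by
    intro b k
    unfold letter
    rw [← map_zpow, ← ofAdd_zsmul]
    simp
  refine ⟨ψ, fun w => ?_⟩
  change w ∈ ψ.range
  induction w using Monoid.CoprodI.induction_on with
  | one => exact one_mem _
  | of i m =>
    change letter i (Multiplicative.toAdd m) ∈ ψ.range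
    rw [h2]
    refine zpow_mem ?_ _
    cases i
    · exact h1
    · exact h0
  | mul x y hx hy => exact mul_mem hx hy

/-- Every recursively enumerable set is many-one reducible to the halting set. -/
theorem universal {S : ℕ → Prop} (hS : REPred S) : ∃ g : ℕ → ℕ, Computable g ∧
    ∀ n, S n ↔ (Code.eval (Denumerable.ofNat Code (g n)) 0).Dom := by
  have hf : Partrec (fun m : ℕ => (Part.assert (S (Nat.unpair m).1) fun _ => Part.some ()).map
      (fun _ => 0)) :=
    Partrec.map (Partrec.comp hS (Computable.fst.comp Computable.unpair)) (Computable.const 0).to₂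
  obtain ⟨c, hc⟩ := Code.exists_code.1 (Partrec.nat_iff.1 hf)
  refine ⟨fun n => Encodable.encode (Code.curry c n),
    Computable.encode.comp (Code.primrec₂_curry.comp (Primrec.const c) Primrec.id).to_comp,
    fun n => ?_⟩
  rw [Denumerable.ofNat_encode, Code.eval_curry, hc]
  simp [Part.map, Part.assert]

theorem halting_re : REPred fun n : ℕ => (Code.eval (Denumerable.ofNat Code n) 0).Dom := by
  have h1 : Partrec fun n : ℕ => Code.eval (Denumerable.ofNat Code n) 0 :=
    Code.eval_part.comp (Computable.ofNat Code) (Computable.const 0)
  exact h1.dom_re

theorem halting_not_co_re :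
    ¬ REPred fun n : ℕ => ¬ (Code.eval (Denumerable.ofNat Code n) 0).Dom := by
  intro h
  have h1 := ComputablePred.computable_iff_re_compl_re'.2 ⟨halting_re, h⟩
  have h2 := comp_pred h1 (Computable.encode (α := Code))
  refine ComputablePred.halting_problem 0 (h2.of_eq fun c => ?_)
  rw [Denumerable.ofNat_encode]

/-- The list `F` extended by two words. -/
def ext (F : List Word) (p : Word × Word) : List Word := F ++ [p.1, p.2]

/-- The class `C` of groups has a member with a free subgroup of rank two. -/
def HasFree (C : (G : Type u) → Group G → Prop) : Prop :=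
  ∃ (G : Type u) (h : Group G), C G h ∧ ∃ φ : FreeGroup (Fin 2) →* G, Function.Injective φ

/-- The list `B` is functionally complete on every group of the class `C`. -/
def CompleteOn (C : (G : Type u) → Group G → Prop) (B : List Word) : Prop :=
  ∀ (G : Type u) (h : Group G), C G h → @FunctionallyComplete G h B

/-- **Two words added to a fixed list.** There is a fixed finite list `F` of words such that

* for every recursively enumerable set `S` there is a computable function `f` from the natural
  numbers to pairs of words with: if `n` is in `S`, then the list `F` extended by the two words of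
  `f n` is functionally complete on every group; if `n` is not in `S`, then this list is not
  functionally complete on some group generated by two elements, nor on any group with a free
  subgroup of rank two;
* for every class `C` of groups with a member that has a free subgroup of rank two (such as the
  class of all groups), no algorithm decides, given two words, whether `F` extended by these two
  words is functionally complete on every group of `C`, and the pairs of words for which this is
  false are not recursively enumerable;
* in particular, the same holds for every single group with a free subgroup of rank two. -/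
theorem result : ∃ F : List Word,
    (∀ S : ℕ → Prop, REPred S → ∃ f : ℕ → Word × Word, Computable f ∧ ∀ n,
      (S n → ∀ (G : Type u) [Group G], FunctionallyComplete G (ext F (f n))) ∧
      (¬ S n → (∃ (G : Type u) (_ : Group G), (∃ ψ : FreeGroup (Fin 2) →* G,
          Function.Surjective ψ) ∧ ¬ FunctionallyComplete G (ext F (f n))) ∧
        ∀ (G : Type u) [Group G], (∃ φ : FreeGroup (Fin 2) →* G, Function.Injective φ) →
          ¬ FunctionallyComplete G (ext F (f n)))) ∧
    (∀ C : (G : Type u) → Group G → Prop, HasFree C →
      (¬ ComputablePred fun p : Word × Word => CompleteOn C (ext F p)) ∧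
        ¬ REPred fun p : Word × Word => ¬ CompleteOn C (ext F p)) ∧
    ∀ (G : Type u) [Group G], (∃ φ : FreeGroup (Fin 2) →* G, Function.Injective φ) →
      (¬ ComputablePred fun p : Word × Word => FunctionallyComplete G (ext F p)) ∧
        ¬ REPred fun p : Word × Word => ¬ FunctionallyComplete G (ext F p) := by
  obtain ⟨d, f, L, hL⟩ := exists_system_fin _ halting_re
  obtain ⟨F, t, hFt, ht⟩ : ∃ (F : List Word) (t : ℕ → Word × Word),
      (∀ n, ext F (t n) = theList (extL L) f n) ∧ Computable t := by
    refine ⟨[((X 0)⁻¹).toWord, (hval (X 0) (X 1)).toWord, (startG d).toWord] ++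
      ruleWords (extL L), fun n => (finW (extL L).length f 2 n, finW (extL L).length f 3 n), ?_,
      (Primrec.pair (finW_primrec _ f 2) (finW_primrec _ f 3)).to_comp⟩
    intro n
    simp only [ext, theList]
  have hK : ∀ n : ℕ, (∃ z : Fin d → ℤ, z f = 1 - 4 * n ∧ ∀ Q ∈ L, Q.Holds z) ↔
      (Code.eval (Denumerable.ofNat Code n) 0).Dom := by
    intro n
    rw [hL]
    constructor
    · rintro ⟨m, hm, h⟩
      have : n = m := by omega
      rwa [this]
    · intro h
      exact ⟨n, h, rfl⟩
  have hyes : ∀ n : ℕ, (Code.eval (Denumerable.ofNat Code n) 0).Dom →
      ∀ (G : Type u) [Group G], FunctionallyComplete G (ext F (t n)) := by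
    intro n hn G _
    rw [hFt]
    exact (complete_iff' L f n).2 ((hK n).2 hn) G
  have hno : ∀ n : ℕ, ¬ (Code.eval (Denumerable.ofNat Code n) 0).Dom →
      ∃ (G : Type) (_ : Group G), (∃ ψ : FreeGroup (Fin 2) →* G,
        Function.Surjective ψ) ∧ ¬ FunctionallyComplete G (ext F (t n)) := by
    intro n hn
    have h1 := not_complete L f n (fun h => hn ((hK n).1 h))
    rw [← hFt] at h1
    obtain ⟨ψ, hψ⟩ := exists_surj
    exact ⟨W ⧸ NR (d + 4) (TrS (extL L)), inferInstance, ⟨(QuotientGroup.mk' _).comp ψ,
      (QuotientGroup.mk'_surjective _).comp hψ⟩, h1⟩
  have hno' : ∀ n : ℕ, ¬ (Code.eval (Denumerable.ofNat Code n) 0).Dom →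
      ∀ (G : Type u) [Group G], (∃ φ : FreeGroup (Fin 2) →* G, Function.Injective φ) →
        ¬ FunctionallyComplete G (ext F (t n)) := by
    rintro n hn G _ ⟨φ, hφ⟩ hG
    obtain ⟨H, _, _, hH⟩ := hno n hn
    obtain ⟨v, hv⟩ := exists_lift_injective φ hφ
    exact hH fun w => produced_of_free hv (hG w)
  have hC : ∀ C : (G : Type u) → Group G → Prop, HasFree C → ∀ n : ℕ,
      (CompleteOn C (ext F (t n)) ↔ (Code.eval (Denumerable.ofNat Code n) 0).Dom) := by
    rintro C ⟨G, hG, hCG, hφ⟩ n
    constructor
    · intro h
      by_contra hn
      exact hno' n hn G hφ (h G hG hCG)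
    · intro h G _ _
      exact hyes n h G
  have hmain : ∀ C : (G : Type u) → Group G → Prop, HasFree C →
      (¬ ComputablePred fun p : Word × Word => CompleteOn C (ext F p)) ∧
        ¬ REPred fun p : Word × Word => ¬ CompleteOn C (ext F p) := by
    intro C hCF
    have h2 : ¬ REPred fun p : Word × Word => ¬ CompleteOn C (ext F p) := by
      intro h
      refine halting_not_co_re ?_
      have h1 : REPred fun n => ¬ CompleteOn C (ext F (t n)) := Partrec.comp h ht
      exact h1.of_eq fun n => by rw [hC C hCF n]
    exact ⟨fun h => h2 h.not.to_re, h2⟩
  refine ⟨F, ?_, hmain, ?_⟩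
  · intro S hS
    obtain ⟨g, hg, hSg⟩ := universal hS
    refine ⟨fun n => t (g n), ht.comp hg, fun n => ⟨fun hn => hyes _ ((hSg n).1 hn), fun hn => ?_⟩⟩
    have hn' : ¬ (Code.eval (Denumerable.ofNat Code (g n)) 0).Dom := fun h => hn ((hSg n).2 h)
    refine ⟨?_, hno' _ hn'⟩
    obtain ⟨H, hH, ⟨ψ, hψ⟩, h⟩ := hno _ hn'
    exact ⟨ULift.{u} H, inferInstance, ⟨(MulEquiv.ulift.symm : H ≃* ULift.{u} H).toMonoidHom.comp ψ,
      (MulEquiv.ulift.symm : H ≃* ULift.{u} H).surjective.comp hψ⟩,
      fun h' => h (complete_equiv MulEquiv.ulift h')⟩
  · intro G hG hφ
    have h := hmain (fun G' h' => ∃ e : G' = G, h' = e ▸ hG) ⟨G, hG, ⟨rfl, rfl⟩, hφ⟩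
    have hE : ∀ p : Word × Word, CompleteOn (fun G' h' => ∃ e : G' = G, h' = e ▸ hG) (ext F p) ↔
        FunctionallyComplete G (ext F p) := by
      intro p
      constructor
      · intro h
        exact h G hG ⟨rfl, rfl⟩
      · rintro h G' h' ⟨rfl, rfl⟩
        exact h
    exact ⟨fun h1 => h.1 (h1.of_eq fun p => (hE p).symm),
      fun h1 => h.2 (h1.of_eq fun p => by rw [hE p])⟩

end Pool.Agent.Results.MP_57bda5_lc.TwoWords
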